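import Pool.Agent.Work.MP_db9399_sl.Interface

/-!
# MP_db9399, spots last: VSEQ (helper84)

The vertex colours of all spots, one spot after the other, from `Stmt_VSP`.
-/

set_option autoImplicit false

namespace Pool.Agent.Work.MP_db9399_sl_helper84

open Finset Classical
open Pool.Agent.Work.MP_db9399_sl
open Pool.Agent.Work.MP_db9399_all (nb)
open Pool.Agent.Work.MP_db9399_dn (IsMat Tot)
open Pool.Agent.Work.MP_db9399_bg (HPre)

universe u

section

variable {V : Type u} [Fintype V]

theorem mem_nb {G : SimpleGraph V} {v w : V} : w ∈ nb G v ↔ G.Adj v w := by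
  simp [nb]

/-- the coloured vertices: outside the spots, in `UH`, or in a spot of `Ps` -/
def Col (Ys : Finset (Finset V)) (UH : Finset V) (Ps : Finset (Finset V)) (v : V) : Prop :=
  InS Ys v → v ∈ UH ∨ InS Ps v

theorem odd_congr {K : Type} {Y : Finset V} {F F' : V → Finset K} {K0 : Finset K}
    (h : ∀ v ∈ Y, F v = F' v) : odd Y F K0 = odd Y F' K0 := by
  unfold odd
  apply Finset.filter_congr
  intro b _
  have : Y.filter (fun v => b ∉ F v) = Y.filter (fun v => b ∉ F' v) := by
    apply Finset.filter_congr
    intro v hv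
    rw [h v hv]
  rw [this]

/-- at most two vertices of a spot are in `UH` -/
theorem card_UH_le {G : SimpleGraph V} {d k : ℕ} {θ : ℝ} {Y UH : Finset V} {c0 tu : V → Fin k}
    {EH : SimpleGraph V} (hd : 1 ≤ d) (hθ : θ < 1 / 2) (hY : d ≤ Y.card)
    (hinn : ∀ v ∈ Y, ((Y \ nb G v).card : ℝ) ≤ θ * d) (hH : HPre G UH c0 EH tu) :
    (Y ∩ UH).card ≤ 2 := by
  have hcom : ∀ u ∈ Y ∩ UH, ∀ u' ∈ Y ∩ UH, u = u' ∨ EH.Adj u u' := by
    intro u hu u' hu'
    rw [Finset.mem_inter] at hu hu'
    -- a common neighbour in `Y`
    obtain ⟨v, hv⟩ : ∃ v, v ∈ Y ∧ v ∉ (Y \ nb G u) ∪ (Y \ nb G u') := by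
      by_contra hcon
      push Not at hcon
      have h1 : Y ⊆ (Y \ nb G u) ∪ (Y \ nb G u') := fun v hv => hcon v hv
      have h2 := (Finset.card_le_card h1).trans (Finset.card_union_le _ _)
      have h3 := hinn u hu.1
      have h4 := hinn u' hu'.1
      have h5 : (Y.card : ℝ) ≤ ((Y \ nb G u).card : ℝ) + ((Y \ nb G u').card : ℝ) := by
        exact_mod_cast h2
      have h6 : (d : ℝ) ≤ Y.card := by exact_mod_cast hY
      have h7 : (1 : ℝ) ≤ d := by exact_mod_cast hd
      nlinarith
    obtain ⟨hvY, hv⟩ := hv
    rw [Finset.mem_union, not_or, Finset.mem_sdiff, Finset.mem_sdiff] at hv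
    have h1 : v ∈ nb G u := by
      by_contra hc
      exact hv.1 ⟨hvY, hc⟩
    have h2 : v ∈ nb G u' := by
      by_contra hc
      exact hv.2 ⟨hvY, hc⟩
    exact hH.far v u hu.2 u' hu'.2 (mem_nb.1 h1).symm (mem_nb.1 h2).symm
  by_contra hcon
  push Not at hcon
  obtain ⟨u, hu⟩ : (Y ∩ UH).Nonempty := by
    rw [← Finset.card_pos]; omega
  have h1 : (Y ∩ UH).erase u ⊆ nb EH u := by
    intro u' hu'
    rw [Finset.mem_erase] at hu'
    rcases hcom u hu u' hu'.2 with h | h
    · exact absurd h.symm hu'.1
    · exact mem_nb.2 h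
  have h2 := (Finset.card_le_card h1).trans (hH.mat u)
  rw [Finset.card_erase_of_mem hu] at h2
  omega

end

/-- the vertex colours of all spots, from those of one spot -/
theorem VSEQ (hVSP : Stmt_VSP.{u}) : Stmt_VSEQ.{u} := by
  intro δ π hδ hπ1 hπ2
  set κ : ℝ := min (1 / 10 ^ 16) (min (δ / 40) ((1 / 3 - π) / 2)) with hκ
  have hκ0 : 0 < κ := by
    rw [hκ]
    refine lt_min (by norm_num) (lt_min (by positivity) (by linarith))
  have hκ1 : κ ≤ 1 / 10 ^ 16 := min_le_left _ _
  have hκ2 : κ ≤ δ / 40 := (min_le_right _ _).trans (min_le_left _ _)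
  have hκ3 : κ ≤ (1 / 3 - π) / 2 := (min_le_right _ _).trans (min_le_right _ _)
  refine ⟨κ / 2, κ / 2, ⌈2 / κ⌉₊ + 1, by positivity, by positivity, ?_⟩
  intro V _ G d k Ys UH c0 EH tu c t E K0 C p a Z hd hdeg hdis hcard hin hinn hH hCc hO
  -- sizes
  have hdR : 2 / κ ≤ (d : ℝ) := by
    have h1 : (⌈2 / κ⌉₊ : ℝ) ≤ (d : ℝ) := by
      exact_mod_cast (Nat.le_succ _).trans hd
    exact (Nat.le_ceil _).trans h1
  have hκd : 2 ≤ κ * d := by
    rw [div_le_iff₀ hκ0] at hdR
    linarith
  have hd1 : 1 ≤ d := (Nat.succ_le_succ (Nat.zero_le _)).trans hd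
  have hd0R : (0 : ℝ) < d := by exact_mod_cast hd1
  set x : ℕ := ⌈κ * d⌉₊ with hx
  have hx1 : κ * d ≤ (x : ℝ) := Nat.le_ceil _
  have hx2 : (x : ℝ) ≤ κ * d + 1 := (Nat.ceil_lt_add_one (by positivity)).le
  have hxpos : 1 ≤ x := by
    have : (1 : ℝ) ≤ x := by linarith
    exact_mod_cast this
  have hxd : 10 ^ 15 * x ≤ d := by
    have h1 : (10 : ℝ) ^ 15 * x ≤ d := by
      have h2 : (x : ℝ) ≤ 3 / 2 * (κ * d) := by linarith
      have h3 : κ * d ≤ 1 / 10 ^ 16 * d := mul_le_mul_of_nonneg_right hκ1 hd0R.le
      calc (10 : ℝ) ^ 15 * x ≤ 10 ^ 15 * (3 / 2 * (1 / 10 ^ 16 * d)) := by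
            apply mul_le_mul_of_nonneg_left _ (by positivity)
            linarith
        _ ≤ (d : ℝ) := by
            norm_num
            linarith
    exact_mod_cast h1
  have h20x : (20 * x : ℝ) ≤ δ * d := by
    have h2 : (x : ℝ) ≤ 3 / 2 * (κ * d) := by linarith
    have h3 : κ * d ≤ δ / 40 * d := mul_le_mul_of_nonneg_right hκ2 hd0R.le
    nlinarith
  have hEinn : ∀ Y ∈ Ys, ∀ v ∈ Y, (nb G v ∩ Y).card ≤ (nb (Gin G EH Ys) v).card + 1 := by
    intro Y hY v hv
    have h1 : nb G v ∩ Y ⊆ nb (Gin G EH Ys) v ∪ nb EH v := by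
      intro w hw
      rw [Finset.mem_inter, mem_nb] at hw
      rw [Finset.mem_union, mem_nb, mem_nb]
      by_cases hE : EH.Adj v w
      · exact Or.inr hE
      · exact Or.inl ⟨hw.1, ⟨Y, hY, hv, hw.2⟩, hE⟩
    have h2 := (Finset.card_le_card h1).trans (Finset.card_union_le _ _)
    have h3 := hH.mat v
    omega
  have hnbot : ∀ v, (nb (⊥ : SimpleGraph V) v).card = 0 := by
    intro v
    rw [Finset.card_eq_zero, Finset.eq_empty_iff_forall_notMem]
    intro w hw
    rw [mem_nb] at hw
    exact hw
  have hEd : ∀ v, InS Ys v → (E v).card + (nb (Gin G EH Ys) v).card = d := by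
    intro v hv
    have := hO.Ed v hv
    rwa [hnbot, add_zero] at this
  -- the sets `F0 u`
  have hF0ex : ∀ u, ∃ F : Finset (Fin k), InS Ys u → u ∈ UH →
      (insert (c0 u) (E u)) ∩ K0 ⊆ F ∧ F ⊆ K0 ∧ F.card + (nb (Gin G EH Ys) u).card = d + 1 := by
    intro u
    by_cases h : InS Ys u ∧ u ∈ UH
    · have h1 := hEd u h.1
      have h2 : ((insert (c0 u) (E u)) ∩ K0).card ≤ d + 1 - (nb (Gin G EH Ys) u).card := by
        have h3 : ((insert (c0 u) (E u)) ∩ K0).card ≤ (insert (c0 u) (E u)).card :=
          Finset.card_le_card Finset.inter_subset_left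
        have h4 := Finset.card_insert_le (c0 u) (E u)
        omega
      have h5 : d + 1 - (nb (Gin G EH Ys) u).card ≤ K0.card := by
        rw [hO.K0c]; omega
      obtain ⟨F, hF1, hF2, hF3⟩ := Finset.exists_subsuperset_card_eq Finset.inter_subset_right h2 h5
      exact ⟨F, fun _ _ => ⟨hF1, hF2, by omega⟩⟩
    · exact ⟨∅, fun h1 h2 => absurd ⟨h1, h2⟩ h⟩
  choose F0 hF0 using hF0ex
  -- same spot
  have hsame : ∀ Y ∈ Ys, ∀ v ∈ Y, ∀ w, Same Ys v w ↔ w ∈ Y := by
    intro Y hY v hv w
    constructor
    · rintro ⟨Y', hY', hv', hw'⟩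
      by_contra hc
      have hne : Y ≠ Y' := fun h => hc (h ▸ hw')
      exact (Finset.disjoint_left.1 (hdis Y hY Y' hY' hne)) hv hv'
    · intro hw
      exact ⟨Y, hY, hv, hw⟩
  -- induction over the spots
  have main : ∀ Ps : Finset (Finset V), Ps ⊆ Ys → ∃ c' : V → Fin k,
      (∀ v, ¬ InS Ps v → c' v = c v) ∧ (∀ v ∈ UH, c' v = c0 v) ∧
      (∀ v w, G.Adj v w → Col Ys UH Ps v → Col Ys UH Ps w → c' v ≠ c' w) ∧
      ∀ Y ∈ Ps, ∃ ZY : Finset V,
        (∀ v ∈ Y, v ∉ UH → c' v ∈ K0 ∧ c' v ∉ E v) ∧
        (∀ b, (Y.filter (fun v => v ∉ UH ∧ c' v = b)).card ≤ 2) ∧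
        Z ⊆ ZY ∧ (Y ∩ ZY).card ≤ 20 * x ∧ (∀ v ∈ Y, v ∉ ZY → c' v ∉ C (p v)) ∧
        (odd Y (fun v => if v ∈ UH then F0 v else insert (c' v) (E v)) K0).card ≤ Y.card := by
    intro Ps
    induction Ps using Finset.induction_on with
    | empty =>
      intro _
      refine ⟨c, fun v _ => rfl, hO.cU, ?_, ?_⟩
      · intro v w hvw hv hw
        refine hO.cc v w hvw (fun h => ?_) (fun h => ?_)
        · rcases hv h with h' | ⟨Y, hY, -⟩
          · exact h'
          · exact absurd hY (Finset.notMem_empty Y)
        · rcases hw h with h' | ⟨Y, hY, -⟩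
          · exact h'
          · exact absurd hY (Finset.notMem_empty Y)
      · intro Y hY
        exact absurd hY (Finset.notMem_empty Y)
    | insert Y Ps hYP ih =>
      intro hsub
      have hYs : Y ∈ Ys := hsub (Finset.mem_insert_self _ _)
      obtain ⟨c', ha, hb, hc, hd'⟩ := ih fun Y' hY' => hsub (Finset.mem_insert_of_mem hY')
      have hInY : ∀ v ∈ Y, InS Ys v := fun v hv => ⟨Y, hYs, hv⟩
      have hnotPs : ∀ v ∈ Y, ¬ InS Ps v := by
        rintro v hv ⟨Y', hY', hv'⟩
        have hne : Y ≠ Y' := fun h => hYP (h ▸ hY')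
        exact (Finset.disjoint_left.1 (hdis Y hYs Y' (hsub (Finset.mem_insert_of_mem hY')) hne))
          hv hv'
      set W : Finset V := Y ∩ UH with hW
      set A : V → Finset (Fin k) := fun v =>
        ((nb (Gex G Ys) v).filter (fun w => Col Ys UH Ps w)).image c' with hA
      set cw : Finset (Fin k) := (W.image c0) ∩ K0 with hcw
      have hWmem : ∀ v ∈ Y, (v ∈ W ↔ v ∈ UH) := fun v hv => by
        rw [hW, Finset.mem_inter]
        exact ⟨fun h => h.2, fun h => ⟨hv, h⟩⟩
      have hEcard : ∀ v ∈ Y, ((E v).card : ℝ) ≤ κ * d := by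
        intro v hv
        have h1 := hEd v (hInY v hv)
        have h2 := hEinn Y hYs v hv
        have h3 := hin Y hYs v hv
        have h4 : ((nb G v ∩ Y).card : ℝ) ≤ (nb (Gin G EH Ys) v).card + 1 := by exact_mod_cast h2
        have h5 : ((E v).card : ℝ) + (nb (Gin G EH Ys) v).card = d := by exact_mod_cast h1
        nlinarith
      have hVSH : VSH (Gin G EH Ys) d x Y K0 E A F0 W cw p C Z := by
        refine
          { K0c := hO.K0c
            x1 := hxpos
            xd := hxd
            big := (hcard Y hYs).1
            upp := ?_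
            nbY := ?_
            inn := ?_
            EK := ?_
            deg := ?_
            Ex := ?_
            AE := ?_
            WY := Finset.inter_subset_left
            W2 := ?_
            FK := ?_
            Fd := ?_
            cwF := ?_
            cwc := ?_
            ld := ?_
            ZY := ?_
            WZ := ?_
            Cd := hO.Cd
            CK := hO.CK
            Cc := ?_
            pc := ?_
            av := ?_ }
        · -- upp
          have h1 := (hcard Y hYs).2
          have h2 : (Y.card : ℝ) ≤ d + x := by nlinarith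
          exact_mod_cast h2
        · -- nbY
          intro v hv w hw
          rw [mem_nb] at hw
          exact (hsame Y hYs v hv w).1 hw.2.1
        · -- inn
          intro v hv
          have h1 : Y \ nb (Gin G EH Ys) v ⊆ (Y \ nb G v) ∪ nb EH v := by
            intro w hw
            rw [Finset.mem_sdiff, mem_nb] at hw
            rw [Finset.mem_union, Finset.mem_sdiff, mem_nb, mem_nb]
            by_cases hE : EH.Adj v w
            · exact Or.inr hE
            · refine Or.inl ⟨hw.1, fun hG => hw.2 ⟨hG, ⟨Y, hYs, hv, hw.1⟩, hE⟩⟩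
          have h2 := (Finset.card_le_card h1).trans (Finset.card_union_le _ _)
          have h3 := hH.mat v
          have h4 := hinn Y hYs v hv
          have h5 : ((Y \ nb (Gin G EH Ys) v).card : ℝ) ≤ (Y \ nb G v).card + 1 := by
            exact_mod_cast h2.trans (Nat.add_le_add_left h3 _)
          have h6 : ((Y \ nb (Gin G EH Ys) v).card : ℝ) ≤ x := by nlinarith
          exact_mod_cast h6
        · -- EK
          intro v hv hvW
          exact hO.EK v (hInY v hv) fun h => hvW ((hWmem v hv).2 h)
        · -- deg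
          intro v hv _
          have := hEd v (hInY v hv)
          omega
        · -- Ex
          intro v hv _
          have h1 := hEcard v hv
          have h2 : ((E v).card : ℝ) ≤ x := h1.trans hx1
          exact_mod_cast h2
        · -- AE
          intro v hv _
          have h1 : (A v).card ≤ (nb (Gex G Ys) v).card :=
            Finset.card_image_le.trans (Finset.card_le_card (Finset.filter_subset _ _))
          have h2 : ((nb (Gex G Ys) v).image (t v)).card = (nb (Gex G Ys) v).card := by
            apply Finset.card_image_of_injOn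
            intro w hw w' hw' heq
            rw [Finset.mem_coe, mem_nb] at hw hw'
            exact hO.ti v (Or.inl hw) (Or.inl hw') heq
          have h3 : (nb (Gex G Ys) v).image (t v) ⊆ E v := by
            intro b hb'
            rw [Finset.mem_image] at hb'
            obtain ⟨w, hw, rfl⟩ := hb'
            exact hO.Et v w (hInY v hv) (Or.inl (mem_nb.1 hw))
          have h4 := Finset.card_le_card h3
          omega
        · -- W2
          exact card_UH_le hd1 (θ := κ / 2) (by
            have : κ ≤ 1 / 10 ^ 16 := hκ1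
            norm_num at this ⊢
            linarith) (hcard Y hYs).1 (hinn Y hYs) hH
        · -- FK
          intro u hu
          rw [hW, Finset.mem_inter] at hu
          exact (hF0 u (hInY u hu.1) hu.2).2.1
        · -- Fd
          intro u hu
          rw [hW, Finset.mem_inter] at hu
          have := (hF0 u (hInY u hu.1) hu.2).2.2
          omega
        · -- cwF
          intro b hb'
          rw [hcw, Finset.mem_inter, Finset.mem_image] at hb'
          obtain ⟨⟨u, hu, rfl⟩, hbK⟩ := hb'
          refine ⟨u, hu, ?_⟩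
          rw [hW, Finset.mem_inter] at hu
          exact (hF0 u (hInY u hu.1) hu.2).1
            (Finset.mem_inter.2 ⟨Finset.mem_insert_self _ _, hbK⟩)
        · -- cwc
          exact (Finset.card_le_card Finset.inter_subset_left).trans Finset.card_image_le
        · -- ld
          intro b
          have h1 := hO.ld Y hYs b
          have h2 : ((Y.filter (fun v => v ∉ Z ∧ b ∈ E v)).card : ℝ) ≤ x := by nlinarith
          exact_mod_cast h2
        · -- ZY
          have h1 := hO.ZY Y hYs
          have h2 : ((Y ∩ Z).card : ℝ) ≤ x := by nlinarith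
          exact_mod_cast h2
        · -- WZ
          intro u hu
          rw [hW, Finset.mem_inter] at hu
          exact hO.UZ u hu.2 (hInY u hu.1)
        · -- Cc
          intro j
          have h1 := hCc j
          have h2 := hO.cell Y hYs j true
          have h3 := hO.cell Y hYs j false
          have h4 : (Y.filter (fun v => p v = j)).card =
              (Y.filter (fun v => p v = j ∧ a v = true)).card +
              (Y.filter (fun v => p v = j ∧ a v = false)).card := by
            rw [← Finset.card_union_of_disjoint]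
            · congr 1
              ext v
              simp only [Finset.mem_filter, Finset.mem_union]
              cases h : a v <;> simp
            · rw [Finset.disjoint_left]
              intro v hv hv'
              rw [Finset.mem_filter] at hv hv'
              rw [hv.2.2] at hv'
              exact Bool.noConfusion hv'.2.2
          have h5 : ((Y.filter (fun v => p v = j)).card : ℝ) =
              (Y.filter (fun v => p v = j ∧ a v = true)).card +
              (Y.filter (fun v => p v = j ∧ a v = false)).card := by exact_mod_cast h4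
          rw [abs_le] at h2 h3
          have h6 : (d : ℝ) ≤ Y.card := by exact_mod_cast (hcard Y hYs).1
          have h7 : ((C j).card : ℝ) ≤ (Y.filter (fun v => p v = j)).card := by
            rw [h5]
            have h8 : κ * d ≤ (1 / 3 - π) / 2 * d := mul_le_mul_of_nonneg_right hκ3 hd0R.le
            nlinarith [h2.1, h3.1]
          exact_mod_cast h7
        · -- pc
          intro j
          have h2 := hO.cell Y hYs j true
          have h3 := hO.cell Y hYs j false
          have h4 : (Y.filter (fun v => p v = j)).card =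
              (Y.filter (fun v => p v = j ∧ a v = true)).card +
              (Y.filter (fun v => p v = j ∧ a v = false)).card := by
            rw [← Finset.card_union_of_disjoint]
            · congr 1
              ext v
              simp only [Finset.mem_filter, Finset.mem_union]
              cases h : a v <;> simp
            · rw [Finset.disjoint_left]
              intro v hv hv'
              rw [Finset.mem_filter] at hv hv'
              rw [hv.2.2] at hv'
              exact Bool.noConfusion hv'.2.2
          have h5 : ((Y.filter (fun v => p v = j)).card : ℝ) =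
              (Y.filter (fun v => p v = j ∧ a v = true)).card +
              (Y.filter (fun v => p v = j ∧ a v = false)).card := by exact_mod_cast h4
          rw [abs_le] at h2 h3 ⊢
          rw [h5]
          constructor <;> nlinarith [h2.1, h2.2, h3.1, h3.2]
        · -- av
          intro v hv hvZ
          exact hO.av v (hInY v hv) hvZ
      obtain ⟨cY, ZY, h1, h2, h3, h4, h5, h6, h7⟩ := hVSP (Gin G EH Ys) d x Y K0 E A F0 W cw p C Z
        hVSH
      refine ⟨fun v => if v ∈ Y ∧ v ∉ UH then cY v else c' v, ?_, ?_, ?_, ?_⟩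
      · -- unchanged
        intro v hv
        have hvY : v ∉ Y := fun h => hv ⟨Y, Finset.mem_insert_self _ _, h⟩
        have hvP : ¬ InS Ps v := fun ⟨Y', hY', hv'⟩ => hv ⟨Y', Finset.mem_insert_of_mem hY', hv'⟩
        simp only [hvY, false_and, if_false]
        exact ha v hvP
      · intro v hv
        have : ¬ (v ∈ Y ∧ v ∉ UH) := fun h => h.2 hv
        simp only [if_neg this]
        exact hb v hv
      · -- proper
        -- a new vertex against any other one
        have key : ∀ v w, G.Adj v w → v ∈ Y → v ∉ UH → Col Ys UH (insert Y Ps) w →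
            cY v ≠ (if w ∈ Y ∧ w ∉ UH then cY w else c' w) := by
          intro v w hvw hvY hvU hw
          have hvW : v ∉ W := fun h => hvU ((hWmem v hvY).1 h)
          obtain ⟨g1, g2, g3, g4⟩ := h1 v hvY hvW
          by_cases hwY : w ∈ Y
          · by_cases hwU : w ∈ UH
            · have : ¬ (w ∈ Y ∧ w ∉ UH) := fun h => h.2 hwU
              rw [if_neg this, hb w hwU]
              intro heq
              apply g4
              rw [hcw, Finset.mem_inter, Finset.mem_image]
              exact ⟨⟨w, (hWmem w hwY).2 hwU, heq.symm⟩, g1⟩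
            · rw [if_pos ⟨hwY, hwU⟩]
              have hwW : w ∉ W := fun h => hwU ((hWmem w hwY).1 h)
              refine h2 v hvY w hwY hvW hwW ⟨hvw, ⟨Y, hYs, hvY, hwY⟩, ?_⟩
              intro hE
              exact hvU (hH.EU v w hE)
          · have : ¬ (w ∈ Y ∧ w ∉ UH) := fun h => hwY h.1
            rw [if_neg this]
            intro heq
            apply g3
            rw [hA]
            simp only [Finset.mem_image, Finset.mem_filter]
            refine ⟨w, ⟨mem_nb.2 ⟨hvw, fun hs => hwY ((hsame Y hYs v hvY w).1 hs)⟩, ?_⟩, heq.symm⟩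
            intro hwS
            rcases hw hwS with h | ⟨Y', hY', hwY'⟩
            · exact Or.inl h
            · rcases Finset.mem_insert.1 hY' with h | h
              · exact absurd (h ▸ hwY') hwY
              · exact Or.inr ⟨Y', h, hwY'⟩
        have hcolold : ∀ v, ¬ (v ∈ Y ∧ v ∉ UH) → Col Ys UH (insert Y Ps) v → Col Ys UH Ps v := by
          intro v hv hcol hvS
          rcases hcol hvS with h | ⟨Y', hY', hvY'⟩
          · exact Or.inl h
          · rcases Finset.mem_insert.1 hY' with h | h
            · have hvY : v ∈ Y := h ▸ hvY'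
              left
              by_contra hvU
              exact hv ⟨hvY, hvU⟩
            · exact Or.inr ⟨Y', h, hvY'⟩
        intro v w hvw hv hw
        simp only
        by_cases hvn : v ∈ Y ∧ v ∉ UH
        · rw [if_pos hvn]
          exact key v w hvw hvn.1 hvn.2 hw
        · by_cases hwn : w ∈ Y ∧ w ∉ UH
          · have := key w v hvw.symm hwn.1 hwn.2 hv
            rw [if_pos hwn]
            exact this.symm
          · rw [if_neg hvn, if_neg hwn]
            exact hc v w hvw (hcolold v hvn hv) (hcolold w hwn hw)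
      · intro Y' hY'
        rcases Finset.mem_insert.1 hY' with rfl | hY'P
        · refine ⟨ZY, ?_, ?_, h4, h5, ?_, ?_⟩
          · intro v hv hvU
            have hvW : v ∉ W := fun h => hvU ((hWmem v hv).1 h)
            obtain ⟨g1, g2, -, -⟩ := h1 v hv hvW
            simp only [hv, hvU, not_false_iff, and_self, if_true]
            exact ⟨g1, g2⟩
          · intro b
            refine (Finset.card_le_card ?_).trans (h3 b)
            intro v hv
            rw [Finset.mem_filter] at hv ⊢
            obtain ⟨hvY, hvU, hvb⟩ := hv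
            have hvb' : (if v ∈ Y' ∧ v ∉ UH then cY v else c' v) = b := hvb
            rw [if_pos ⟨hvY, hvU⟩] at hvb'
            exact ⟨hvY, fun h => hvU ((hWmem v hvY).1 h), hvb'⟩
          · intro v hv hvZ
            have hvU : v ∉ UH := fun h => hvZ (h4 (hO.UZ v h (hInY v hv)))
            simp only [hv, hvU, not_false_iff, and_self, if_true]
            exact h6 v hv hvZ
          · refine le_trans (le_of_eq ?_) h7
            congr 1
            apply odd_congr
            intro v hv
            simp only [hv, true_and, hWmem v hv]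
            by_cases hvU : v ∈ UH
            · simp [hvU]
            · simp [hvU]
        · obtain ⟨ZY', e1, e2, e3, e4, e5, e6⟩ := hd' Y' hY'P
          have hne : Y ≠ Y' := fun h => hYP (h ▸ hY'P)
          have hdisj := hdis Y hYs Y' (hsub (Finset.mem_insert_of_mem hY'P)) hne
          have hnY : ∀ v ∈ Y', v ∉ Y := fun v hv hv' => Finset.disjoint_left.1 hdisj hv' hv
          refine ⟨ZY', ?_, ?_, e3, e4, ?_, ?_⟩
          · intro v hv hvU
            simp only [hnY v hv, false_and, if_false]
            exact e1 v hv hvU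
          · intro b
            refine (Finset.card_le_card ?_).trans (e2 b)
            intro v hv
            rw [Finset.mem_filter] at hv ⊢
            obtain ⟨hvY, hvU, hvb⟩ := hv
            simp only [hnY v hvY, false_and, if_false] at hvb
            exact ⟨hvY, hvU, hvb⟩
          · intro v hv hvZ
            simp only [hnY v hv, false_and, if_false]
            exact e5 v hv hvZ
          · refine le_trans (le_of_eq ?_) e6
            congr 1
            apply odd_congr
            intro v hv
            simp only [hnY v hv, false_and, if_false]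
  obtain ⟨c', ha, hb, hc, hd'⟩ := main Ys (Finset.Subset.refl _)
  choose! ZZ e1 e2 e3 e4 e5 e6 using hd'
  set Z' : Finset V := Z ∪ Ys.biUnion (fun Y => Y ∩ ZZ Y) with hZ'
  set F : V → Finset (Fin k) := fun v => if v ∈ UH then F0 v else insert (c' v) (E v) with hF
  have hUZ' : ∀ v, InS Ys v → v ∉ Z' → v ∉ UH := by
    intro v hv hvZ hvU
    exact hvZ (Finset.mem_union_left _ (hO.UZ v hvU hv))
  have hnZ : ∀ Y ∈ Ys, ∀ v ∈ Y, v ∉ Z' → v ∉ ZZ Y := by
    intro Y hY v hv hvZ hvZZ
    exact hvZ (Finset.mem_union_right _ (Finset.mem_biUnion.2 ⟨Y, hY, Finset.mem_inter.2 ⟨hv, hvZZ⟩⟩))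
  have hFU : ∀ v, v ∈ UH → F v = F0 v := fun v hv => by simp only [hF, if_pos hv]
  have hFn : ∀ v, v ∉ UH → F v = insert (c' v) (E v) := fun v hv => by simp only [hF, if_neg hv]
  refine ⟨c', Z', F, fun v hv => ha v hv, Finset.subset_union_left, ?_⟩
  refine
    { cU := hb
      cc := ?_
      cE := ?_
      EF := ?_
      cF := ?_
      FK := ?_
      Fd := ?_
      av := ?_
      ZY := ?_
      ld := ?_
      par := ?_ }
  · intro v w hvw
    exact hc v w hvw (fun h => Or.inr h) (fun h => Or.inr h)
  · intro v hv
    by_cases hvU : v ∈ UH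
    · rw [hb v hvU]
      exact (hO.EU v hvU hv).2
    · obtain ⟨Y, hY, hvY⟩ := hv
      exact (e1 Y hY v hvY hvU).2
  · intro v hv
    by_cases hvU : v ∈ UH
    · rw [hFU v hvU]
      refine subset_trans ?_ (hF0 v hv hvU).1
      exact Finset.inter_subset_inter_right (Finset.subset_insert _ _)
    · rw [hFn v hvU]
      exact subset_trans Finset.inter_subset_left (Finset.subset_insert _ _)
  · intro v hv hcK
    by_cases hvU : v ∈ UH
    · rw [hFU v hvU]
      rw [hb v hvU] at hcK ⊢
      exact (hF0 v hv hvU).1 (Finset.mem_inter.2 ⟨Finset.mem_insert_self _ _, hcK⟩)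
    · rw [hFn v hvU]
      exact Finset.mem_insert_self _ _
  · intro v hv
    by_cases hvU : v ∈ UH
    · rw [hFU v hvU]
      exact (hF0 v hv hvU).2.1
    · rw [hFn v hvU]
      obtain ⟨Y, hY, hvY⟩ := id hv
      exact Finset.insert_subset (e1 Y hY v hvY hvU).1 (hO.EK v hv hvU)
  · intro v hv
    by_cases hvU : v ∈ UH
    · rw [hFU v hvU]
      exact (hF0 v hv hvU).2.2
    · rw [hFn v hvU]
      obtain ⟨Y, hY, hvY⟩ := id hv
      rw [Finset.card_insert_of_notMem (e1 Y hY v hvY hvU).2]
      have := hEd v hv
      omega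
  · intro v hv hvZ
    have hvU := hUZ' v hv hvZ
    rw [hFn v hvU]
    obtain ⟨Y, hY, hvY⟩ := id hv
    have h1 : v ∉ Z := fun h => hvZ (Finset.mem_union_left _ h)
    rw [Finset.disjoint_insert_left]
    exact ⟨e5 Y hY v hvY (hnZ Y hY v hvY hvZ), hO.av v hv h1⟩
  · intro Y hY
    have h1 : Y ∩ Z' ⊆ Y ∩ ZZ Y := by
      intro v hv
      rw [Finset.mem_inter] at hv ⊢
      refine ⟨hv.1, ?_⟩
      rcases Finset.mem_union.1 hv.2 with h | h
      · exact e3 Y hY h
      · obtain ⟨Y', hY', hvY'⟩ := Finset.mem_biUnion.1 h
        rw [Finset.mem_inter] at hvY'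
        by_cases hYY : Y = Y'
        · rw [hYY]; exact hvY'.2
        · exact absurd hvY'.1 (Finset.disjoint_left.1 (hdis Y hY Y' hY' hYY) hv.1)
    have h2 := (Finset.card_le_card h1).trans (e4 Y hY)
    have h3 : ((Y ∩ Z').card : ℝ) ≤ 20 * x := by exact_mod_cast h2
    linarith
  · intro Y hY b
    have h1 : Y.filter (fun v => v ∉ Z' ∧ b ∈ F v) ⊆
        Y.filter (fun v => v ∉ Z ∧ b ∈ E v) ∪ Y.filter (fun v => v ∉ UH ∧ c' v = b) := by
      intro v hv
      rw [Finset.mem_filter] at hv
      obtain ⟨hvY, hvZ, hvb⟩ := hv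
      have hvS : InS Ys v := ⟨Y, hY, hvY⟩
      have hvU := hUZ' v hvS hvZ
      rw [hFn v hvU, Finset.mem_insert] at hvb
      rw [Finset.mem_union, Finset.mem_filter, Finset.mem_filter]
      rcases hvb with h | h
      · exact Or.inr ⟨hvY, hvU, h.symm⟩
      · exact Or.inl ⟨hvY, fun h' => hvZ (Finset.mem_union_left _ h'), h⟩
    have h2 := (Finset.card_le_card h1).trans (Finset.card_union_le _ _)
    have h3 := hO.ld Y hY b
    have h4 := e2 Y hY b
    have h5 : ((Y.filter (fun v => v ∉ Z' ∧ b ∈ F v)).card : ℝ) ≤
        (Y.filter (fun v => v ∉ Z ∧ b ∈ E v)).card + 2 := by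
      exact_mod_cast h2.trans (Nat.add_le_add_left h4 _)
    nlinarith
  · intro Y hY
    exact e6 Y hY

end Pool.Agent.Work.MP_db9399_sl_helper84
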